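import Mathlib
import Pool.Agent.Run7.h325.HRT.Stm

set_option autoImplicit false

/-!
# Piece GOOD of the HRT project (helper892)
-/

namespace Pool.Agent.Run7.h892.HRT

open Pool.Agent.Run7.h325.HRT MeasureTheory Filter

noncomputable section

lemma one_le_D : (1 : ℝ) ≤ D := by
  unfold D
  rw [Real.one_le_sqrt]
  norm_num

lemma D_le_two : D ≤ 2 := by
  unfold D
  rw [Real.sqrt_le_left (by norm_num)]
  norm_num

/-- the bad set of `k` and `q` -/
def bad (r a q : ℝ) : Set ℝ := {x | |D * (x + a) - q| < r}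

lemma bad_subset (r a q : ℝ) : bad r a q ⊆ Metric.ball (q / D - a) r := by
  intro x hx
  have hD := one_le_D
  have hD0 : 0 < D := by linarith
  rw [Metric.mem_ball, Real.dist_eq]
  have hx' : |D * (x + a) - q| < r := hx
  have e : D * (x + a) - q = D * (x - (q / D - a)) := by field_simp; ring
  rw [e, abs_mul, abs_of_pos hD0] at hx'
  calc |x - (q / D - a)| ≤ D * |x - (q / D - a)| := by
        nlinarith [abs_nonneg (x - (q / D - a))]
    _ < r := hx'

lemma vol_bad (r a q : ℝ) : volume (bad r a q) ≤ ENNReal.ofReal (2 * r) := by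
  calc volume (bad r a q) ≤ volume (Metric.ball (q / D - a) r) := measure_mono (bad_subset r a q)
    _ = ENNReal.ofReal (2 * r) := Real.volume_ball _ _

/-- for almost all `x`, for all `j`, eventually in `k` -/
lemma ev (j : ℤ) : ∀ᵐ x : ℝ, ∀ᶠ k : ℕ in atTop,
    x ∉ bad (1 / ((k : ℝ) + 1) ^ 2) ((k : ℝ) + 1 / 2) ((⌊D * k⌋ : ℝ) + j) := by
  apply ae_eventually_notMem
  have hs : Summable (fun k : ℕ => 2 * (1 / ((k : ℝ) + 1) ^ 2)) := by
    apply Summable.mul_left
    have h := (summable_nat_add_iff (f := fun n : ℕ => 1 / ((n : ℝ)) ^ 2) 1).2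
      (Real.summable_one_div_nat_pow.2 (by norm_num))
    simpa using h
  refine ne_top_of_le_ne_top hs.tsum_ofReal_ne_top ?_
  exact ENNReal.tsum_le_tsum (fun k => vol_bad _ _ _)

/-- for almost all `x` no `D (x + k + 1/2)` is an integer -/
lemma nonint : ∀ᵐ x : ℝ, ∀ (k : ℕ) (p : ℤ), D * (x + k + 1 / 2) ≠ p := by
  have hD0 : 0 < D := by linarith [one_le_D]
  rw [ae_all_iff]
  intro k
  rw [ae_all_iff]
  intro p
  have hset : {x : ℝ | ¬ (D * (x + k + 1 / 2) ≠ p)} ⊆ {(p : ℝ) / D - k - 1 / 2} := by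
    intro x hx
    simp only [ne_eq, not_not, Set.mem_ofPred_eq] at hx
    rw [Set.mem_singleton_iff, ← hx]
    field_simp
    ring
  exact measure_mono_null hset (by simp)

lemma good_of (x : ℝ) (h1 : ∀ j : ℤ, ∀ᶠ k : ℕ in atTop,
    x ∉ bad (1 / ((k : ℝ) + 1) ^ 2) ((k : ℝ) + 1 / 2) ((⌊D * k⌋ : ℝ) + j))
    (h2 : ∀ (k : ℕ) (p : ℤ), D * (x + k + 1 / 2) ≠ p) : Good x := by
  have hD1 := one_le_D
  have hD2 := D_le_two
  -- bound for the relevant j
  obtain ⟨J, hJ⟩ := exists_nat_gt (2 * (|x| + 1) + 3)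
  have h3 : ∀ᶠ k : ℕ in atTop, ∀ j ∈ Finset.Icc (-(J : ℤ)) J,
      x ∉ bad (1 / ((k : ℝ) + 1) ^ 2) ((k : ℝ) + 1 / 2) ((⌊D * k⌋ : ℝ) + j) := by
    rw [eventually_all_finset]
    intro j _
    exact h1 j
  obtain ⟨K, hK⟩ := eventually_atTop.1 h3
  -- the minimum for small k
  set d : ℕ → ℝ := fun k => |D * (x + k + 1 / 2) - round (D * (x + k + 1 / 2))| with hd
  have hdpos : ∀ k, 0 < d k := by
    intro k
    rw [hd]
    simp only
    rw [abs_pos]
    exact sub_ne_zero.2 (h2 k _)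
  obtain ⟨c, hc0, hc1, hc⟩ : ∃ c : ℝ, 0 < c ∧ c ≤ 1 ∧ ∀ k < K, c ≤ d k := by
    clear hK
    induction K with
    | zero => exact ⟨1, one_pos, le_rfl, fun k hk => absurd hk (Nat.not_lt_zero k)⟩
    | succ K ih =>
      obtain ⟨c, hc0, hc1, hc⟩ := ih
      refine ⟨min c (d K), lt_min hc0 (hdpos K), le_trans (min_le_left _ _) hc1, ?_⟩
      intro k hk
      rcases Nat.lt_succ_iff_lt_or_eq.1 hk with h | h
      · exact le_trans (min_le_left _ _) (hc k h)
      · rw [h]; exact min_le_right _ _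
  refine ⟨c, hc0, ?_⟩
  intro k p
  have hk1 : (1 : ℝ) ≤ ((k : ℝ) + 1) ^ 2 := by
    have : (0 : ℝ) ≤ k := Nat.cast_nonneg k
    nlinarith
  have hle1 : c / ((k : ℝ) + 1) ^ 2 ≤ c := div_le_self hc0.le hk1
  have hle2 : c / ((k : ℝ) + 1) ^ 2 ≤ 1 / ((k : ℝ) + 1) ^ 2 := by gcongr
  by_cases hkK : k < K
  · calc c / ((k : ℝ) + 1) ^ 2 ≤ c := hle1
      _ ≤ d k := hc k hkK
      _ ≤ |D * (x + k + 1 / 2) - p| := round_le _ _
  · push Not at hkK
    by_cases hj : (p - ⌊D * k⌋) ∈ Finset.Icc (-(J : ℤ)) J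
    · have h4 := hK k hkK _ hj
      have h5 : 1 / ((k : ℝ) + 1) ^ 2 ≤ |D * (x + k + 1 / 2) - p| := by
        by_contra hcon
        push Not at hcon
        apply h4
        show |D * (x + ((k : ℝ) + 1 / 2)) - ((⌊D * k⌋ : ℝ) + ((p - ⌊D * k⌋ : ℤ) : ℝ))| < _
        have e1 : D * (x + ((k : ℝ) + 1 / 2)) - ((⌊D * k⌋ : ℝ) + ((p - ⌊D * k⌋ : ℤ) : ℝ)) =
            D * (x + k + 1 / 2) - p := by push_cast; ring
        rw [e1]
        exact hcon
      exact le_trans hle2 h5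
    · -- far away
      have h6 : (J : ℝ) ≤ |(p : ℝ) - ⌊D * k⌋| := by
        rw [Finset.mem_Icc, not_and_or, not_le, not_le] at hj
        have : ((J : ℤ) : ℝ) ≤ ((|p - ⌊D * k⌋| : ℤ) : ℝ) := by
          have h7 : (J : ℤ) ≤ |p - ⌊D * k⌋| := by
            rcases hj with h | h
            · exact le_trans (by omega) (neg_le_abs _)
            · exact le_trans h.le (le_abs_self _)
          exact_mod_cast h7
        rw [Int.cast_abs] at this
        push_cast at this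
        exact this
      have hfl1 := Int.floor_le (D * (k : ℝ))
      have hfl2 := Int.lt_floor_add_one (D * (k : ℝ))
      have h8 : |D * (x + k + 1 / 2) - ⌊D * k⌋| ≤ 2 * (|x| + 1) + 1 := by
        have hx1 := neg_abs_le x
        have hx2 := le_abs_self x
        have hx0 := abs_nonneg x
        rw [abs_le]
        constructor
        · nlinarith
        · nlinarith
      have h9 : |(p : ℝ) - ⌊D * k⌋| ≤ |D * (x + k + 1 / 2) - ⌊D * k⌋| +
          |D * (x + k + 1 / 2) - p| := by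
        have := abs_sub_le (p : ℝ) (D * (x + k + 1 / 2)) (⌊D * k⌋ : ℝ)
        rw [abs_sub_comm (p : ℝ) (D * (x + k + 1 / 2))] at this
        linarith
      have : (1 : ℝ) ≤ |D * (x + k + 1 / 2) - p| := by linarith
      linarith

lemma good_ae : ∀ᵐ x : ℝ, Good x := by
  have h1 : ∀ᵐ x : ℝ, ∀ j : ℤ, ∀ᶠ k : ℕ in atTop,
      x ∉ bad (1 / ((k : ℝ) + 1) ^ 2) ((k : ℝ) + 1 / 2) ((⌊D * k⌋ : ℝ) + j) := by
    rw [ae_all_iff]
    exact ev
  filter_upwards [h1, nonint] with x hx1 hx2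
  exact good_of x hx1 hx2

theorem good : S_GOOD := by
  have h1 := good_ae
  have h2 : ∀ᵐ x : ℝ, Good (-x) :=
    (Measure.measurePreserving_neg (volume : Measure ℝ)).quasiMeasurePreserving.ae h1
  filter_upwards [h1, h2] with x hx1 hx2
  exact ⟨hx1, hx2⟩

end

end Pool.Agent.Run7.h892.HRT
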