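import Mathlib
import Pool.Agent.Run7.h325.HRT.Stm

set_option autoImplicit false

/-!
# Piece PAIR of the HRT project (helper892)
-/

namespace Pool.Agent.Run7.h892.HRT

open Pool.Agent.Run7.h325.HRT

noncomputable section

lemma sg_one (p : ℕ) : sg (4 * p + 1) = 1 := by
  unfold sg
  rw [pow_add, pow_mul, Complex.I_pow_four]
  simp

lemma sg_two (p : ℕ) : sg (4 * p + 2) = 0 := by
  unfold sg
  rw [pow_add, pow_mul, Complex.I_pow_four]
  simp

lemma sg_three (p : ℕ) : sg (4 * p + 3) = -1 := by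
  unfold sg
  rw [pow_add, pow_mul, Complex.I_pow_four]
  have : Complex.I ^ 3 = -Complex.I := by
    rw [pow_succ, Complex.I_sq]; ring
  rw [this]
  simp

lemma sg_four (p : ℕ) : sg (4 * p + 4) = 0 := by
  unfold sg
  rw [pow_add, pow_mul, Complex.I_pow_four]
  simp

lemma tele (u : ℝ) (hu : 2 < u) :
    1 / (u * √u) ≤ 1 / 2 * (1 / √(u - 2) - 1 / √(u + 2)) := by
  have hs : 0 < √(u - 2) := Real.sqrt_pos.2 (by linarith)
  have ht : 0 < √(u + 2) := Real.sqrt_pos.2 (by linarith)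
  have hr : 0 < √u := Real.sqrt_pos.2 (by linarith)
  have hs2 : √(u - 2) ^ 2 = u - 2 := Real.sq_sqrt (by linarith)
  have ht2 : √(u + 2) ^ 2 = u + 2 := Real.sq_sqrt (by linarith)
  have hr2 : √u ^ 2 = u := Real.sq_sqrt (by linarith)
  set s := √(u - 2)
  set t := √(u + 2)
  set r := √u
  have hst : s * t ≤ u := by nlinarith [sq_nonneg (s * t - u), mul_pos hs ht, sq_nonneg (s - t)]
  have hsum : s + t ≤ 2 * r := by
    have : (s + t) ^ 2 ≤ (2 * r) ^ 2 := by nlinarith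
    exact le_of_sq_le_sq this (by positivity)
  have hprod : s * t * (s + t) ≤ u * (2 * r) :=
    mul_le_mul hst hsum (by positivity) (by linarith)
  have h1 : 1 / s - 1 / t = 4 / (s * t * (s + t)) := by
    have : t ^ 2 - s ^ 2 = 4 := by rw [hs2, ht2]; ring
    field_simp
    nlinarith
  rw [h1]
  have h2 : 1 / (u * r) = 1 / 2 * (4 / (u * (2 * r))) := by
    have : u ≠ 0 := by linarith
    field_simp
    norm_num
  rw [h2]
  gcongr

lemma cos3 (θ : ℝ) : 1 - Real.cos (3 * θ) ≤ 9 * (1 - Real.cos θ) := by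
  rw [Real.cos_three_mul]
  nlinarith [mul_nonneg (sq_nonneg (Real.cos θ - 1)) (by linarith [Real.neg_one_le_cos θ] :
    (0 : ℝ) ≤ Real.cos θ + 2)]

lemma cos2 (θ : ℝ) : 1 - Real.cos (2 * θ) ≤ 4 * (1 - Real.cos θ) := by
  rw [Real.cos_two_mul]
  nlinarith [sq_nonneg (Real.cos θ - 1)]

lemma one_sub_cos (s : ℝ) : 1 - Real.cos s = 2 * Real.sin (s / 2) ^ 2 := by
  have h := Real.cos_two_mul (s / 2)
  have h2 : 2 * (s / 2) = s := by ring
  rw [h2] at h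
  nlinarith [Real.sin_sq_add_cos_sq (s / 2)]

lemma cos_add_le (u v κ : ℝ) (hκ : 0 < κ) :
    1 - Real.cos (u + v) ≤ (1 + κ) * (1 - Real.cos u) + (1 + 1 / κ) * (1 - Real.cos v) := by
  rw [one_sub_cos (u + v), one_sub_cos u, one_sub_cos v]
  have he : (u + v) / 2 = u / 2 + v / 2 := by ring
  rw [he, Real.sin_add]
  set a := Real.sin (u / 2)
  set b := Real.sin (v / 2)
  set c := Real.cos (u / 2)
  set d := Real.cos (v / 2)
  have hc : c ^ 2 ≤ 1 := Real.cos_sq_le_one _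
  have hd : d ^ 2 ≤ 1 := Real.cos_sq_le_one _
  -- (a d + c b)^2 ≤ (1+κ) a^2 d^2 + (1 + 1/κ) c^2 b^2
  have h1 : (a * d + c * b) ^ 2 ≤ (1 + κ) * (a * d) ^ 2 + (1 + 1 / κ) * (c * b) ^ 2 := by
    have hk : (1 : ℝ) / κ * κ = 1 := by field_simp
    have h3 : 0 ≤ 1 / κ * (κ * (a * d) - c * b) ^ 2 := by positivity
    have h4 : 1 / κ * (κ * (a * d) - c * b) ^ 2 =
        κ * (a * d) ^ 2 - 2 * (a * d) * (c * b) + 1 / κ * (c * b) ^ 2 := by
      field_simp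
      ring
    rw [h4] at h3
    nlinarith
  have h5 : (a * d) ^ 2 ≤ a ^ 2 := by
    rw [mul_pow]; nlinarith [sq_nonneg a]
  have h6 : (c * b) ^ 2 ≤ b ^ 2 := by
    rw [mul_pow]; nlinarith [sq_nonneg b]
  have hk0 : 0 < 1 / κ := by positivity
  nlinarith [mul_le_mul_of_nonneg_left h5 (by linarith : (0 : ℝ) ≤ 1 + κ),
    mul_le_mul_of_nonneg_left h6 (by linarith : (0 : ℝ) ≤ 1 + 1 / κ)]

/-- the sum of a block of four -/
lemma block (F : ℕ → ℝ) (P : ℕ) :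
    ∑ l ∈ Finset.Icc 1 (4 * (P + 1)), sg l * F l =
      ∑ l ∈ Finset.Icc 1 (4 * P), sg l * F l + (F (4 * P + 1) - F (4 * P + 3)) := by
  have e : 4 * (P + 1) = 4 * P + 1 + 1 + 1 + 1 := by ring
  rw [e, Finset.sum_Icc_succ_top (by omega), Finset.sum_Icc_succ_top (by omega),
    Finset.sum_Icc_succ_top (by omega), Finset.sum_Icc_succ_top (by omega)]
  have h1 := sg_one P
  have h2 := sg_two P
  have h3 := sg_three P
  have h4 := sg_four P
  have e2 : 4 * P + 1 + 1 = 4 * P + 2 := by ring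
  have e3 : 4 * P + 1 + 1 + 1 = 4 * P + 3 := by ring
  have e4 : 4 * P + 1 + 1 + 1 + 1 = 4 * P + 4 := by ring
  rw [e4, e3, e2, h1, h2, h3, h4]
  ring

lemma step (a : ℕ → ℝ) (θ : ℝ) (l : ℕ) (hl : 5 ≤ l) (h0 : 0 ≤ a (l + 2))
    (h1 : (1 + 4 / (l : ℝ)) * a (l + 2) ≤ a l)
    (h2 : a (l + 2) * (((l + 2 : ℕ) : ℝ) ^ 2 * √((l + 2 : ℕ) : ℝ)) ≤ 1.02 * a 1) :
    - (1.02 * (9 / 7) * a 1 * (1 / 2 * (1 / √(l : ℝ) - 1 / √((l + 4 : ℕ) : ℝ))) *
        (1 - Real.cos θ)) ≤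
      a l * (1 - Real.cos (l * θ)) - a (l + 2) * (1 - Real.cos (((l + 2 : ℕ) : ℝ) * θ)) := by
  have hl5 : (5 : ℝ) ≤ l := by exact_mod_cast hl
  have hl0 : (0 : ℝ) < l := by linarith
  have hcos : 0 ≤ 1 - Real.cos θ := by linarith [Real.cos_le_one θ]
  have hcosl : 0 ≤ 1 - Real.cos (l * θ) := by linarith [Real.cos_le_one (l * θ)]
  have hA : 1 - Real.cos (((l + 2 : ℕ) : ℝ) * θ) ≤
      (1 + 4 / (l : ℝ)) * (1 - Real.cos (l * θ)) + (4 + l) * (1 - Real.cos θ) := by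
    have h := cos_add_le (l * θ) (2 * θ) (4 / l) (by positivity)
    have e : (((l + 2 : ℕ) : ℝ)) * θ = l * θ + 2 * θ := by push_cast; ring
    rw [e]
    have h3 := cos2 θ
    have e2 : (1 : ℝ) / (4 / l) = l / 4 := by field_simp
    rw [e2] at h
    have h4 : (1 + (l : ℝ) / 4) * (1 - Real.cos (2 * θ)) ≤ (4 + l) * (1 - Real.cos θ) := by
      nlinarith
    linarith
  have hB : a (l + 2) * (1 - Real.cos (((l + 2 : ℕ) : ℝ) * θ)) ≤
      a l * (1 - Real.cos (l * θ)) + (4 + l) * a (l + 2) * (1 - Real.cos θ) := by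
    calc a (l + 2) * (1 - Real.cos (((l + 2 : ℕ) : ℝ) * θ))
        ≤ a (l + 2) * ((1 + 4 / (l : ℝ)) * (1 - Real.cos (l * θ)) + (4 + l) * (1 - Real.cos θ)) :=
          mul_le_mul_of_nonneg_left hA h0
      _ = ((1 + 4 / (l : ℝ)) * a (l + 2)) * (1 - Real.cos (l * θ)) +
            (4 + l) * a (l + 2) * (1 - Real.cos θ) := by ring
      _ ≤ _ := by
          have := mul_le_mul_of_nonneg_right h1 hcosl
          linarith
  -- bound for (4 + l) a (l+2)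
  have hC : (4 + l) * a (l + 2) ≤
      1.02 * (9 / 7) * a 1 * (1 / 2 * (1 / √(l : ℝ) - 1 / √((l + 4 : ℕ) : ℝ))) := by
    have ht := tele ((l : ℝ) + 2) (by linarith)
    have e1 : (l : ℝ) + 2 - 2 = l := by ring
    have e2 : (l : ℝ) + 2 + 2 = ((l + 4 : ℕ) : ℝ) := by push_cast; ring
    rw [e1, e2] at ht
    set u : ℝ := (l : ℝ) + 2 with hu
    have eu : ((l + 2 : ℕ) : ℝ) = u := by push_cast; rfl
    rw [eu] at h2
    have hu7 : 7 ≤ u := by linarith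
    have hu0 : 0 < u := by linarith
    have hr : 0 < √u := Real.sqrt_pos.2 hu0
    have ha1 : 0 ≤ 1.02 * a 1 := le_trans (by positivity) h2
    have h3 : a (l + 2) ≤ 1.02 * a 1 / (u ^ 2 * √u) := by
      rw [le_div_iff₀ (by positivity)]; exact h2
    calc (4 + l) * a (l + 2) = (u + 2) * a (l + 2) := by rw [hu]; ring
      _ ≤ (9 / 7 * u) * (1.02 * a 1 / (u ^ 2 * √u)) := by
          apply mul_le_mul (by linarith) h3 h0 (by positivity)
      _ = 9 / 7 * (1.02 * a 1) * (1 / (u * √u)) := by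
          field_simp
      _ ≤ 9 / 7 * (1.02 * a 1) * (1 / 2 * (1 / √(l : ℝ) - 1 / √((l + 4 : ℕ) : ℝ))) :=
          mul_le_mul_of_nonneg_left ht (by positivity)
      _ = _ := by ring
  have hD := mul_le_mul_of_nonneg_right hC hcos
  linarith

/-- the global version -/
lemma global (a : ℕ → ℝ) (θ : ℝ) (h0 : ∀ l : ℕ, 1 ≤ l → 0 ≤ a l)
    (h1 : ∀ l : ℕ, 1 ≤ l → (1 + 4 / (l : ℝ)) * a (l + 2) ≤ a l)
    (h2 : ∀ l : ℕ, 1 ≤ l → a l * ((l : ℝ) ^ 2 * √(l : ℝ)) ≤ 1.02 * a 1) (P : ℕ) :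
    (1 - 0.589 - 1.02 * (9 / 7) * (1 / 2 * (1 / √(5 : ℝ) - 1 / √((4 * P + 5 : ℕ) : ℝ)))) * a 1 *
        (1 - Real.cos θ) ≤
      ∑ l ∈ Finset.Icc 1 (4 * (P + 1)), sg l * (a l * (1 - Real.cos (l * θ))) := by
  have hcos : 0 ≤ 1 - Real.cos θ := by linarith [Real.cos_le_one θ]
  have ha1 : 0 ≤ a 1 := h0 1 le_rfl
  induction P with
  | zero =>
    rw [block]
    simp only [Nat.mul_zero, Nat.zero_add]
    have hE : Finset.Icc 1 0 = (∅ : Finset ℕ) := by rfl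
    rw [hE, Finset.sum_empty]
    have h3 := h2 3 (by norm_num)
    have hs : (1.732 : ℝ) ≤ √3 := by
      apply Real.le_sqrt_of_sq_le; norm_num
    have ha3 : 0 ≤ a 3 := h0 3 (by norm_num)
    have h4 : 9 * a 3 ≤ 0.589 * a 1 := by
      push_cast at h3
      have h5 : a 3 * ((3 : ℝ) ^ 2 * 1.732) ≤ a 3 * ((3 : ℝ) ^ 2 * √3) := by gcongr
      nlinarith
    have h6 := cos3 θ
    have h7 : a 3 * (1 - Real.cos (3 * θ)) ≤ 0.589 * a 1 * (1 - Real.cos θ) := by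
      calc a 3 * (1 - Real.cos (3 * θ)) ≤ a 3 * (9 * (1 - Real.cos θ)) :=
            mul_le_mul_of_nonneg_left h6 ha3
        _ = (9 * a 3) * (1 - Real.cos θ) := by ring
        _ ≤ _ := mul_le_mul_of_nonneg_right h4 hcos
    push_cast
    rw [one_mul]
    have e : (1 - 0.589 - 1.02 * (9 / 7) * (1 / 2 * (1 / √(5 : ℝ) - 1 / √5))) * a 1 *
        (1 - Real.cos θ) = a 1 * (1 - Real.cos θ) - 0.589 * a 1 * (1 - Real.cos θ) := by
      ring
    rw [e]
    linarith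
  | succ P ih =>
    rw [block]
    have hst := step a θ (4 * (P + 1) + 1) (by omega) (h0 _ (by omega)) (h1 _ (by omega))
      (h2 _ (by omega))
    have e1 : 4 * (P + 1) + 1 + 2 = 4 * (P + 1) + 3 := by ring
    have e2 : 4 * (P + 1) + 1 + 4 = 4 * (P + 1) + 5 := by ring
    have e3 : 4 * (P + 1) + 1 = 4 * P + 5 := by ring
    rw [e1, e2] at hst
    rw [e3] at hst
    rw [e3]
    have key : (1 - 0.589 - 1.02 * (9 / 7) *
          (1 / 2 * (1 / √(5 : ℝ) - 1 / √((4 * (P + 1) + 5 : ℕ) : ℝ)))) * a 1 * (1 - Real.cos θ) =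
        (1 - 0.589 - 1.02 * (9 / 7) *
          (1 / 2 * (1 / √(5 : ℝ) - 1 / √((4 * P + 5 : ℕ) : ℝ)))) * a 1 * (1 - Real.cos θ) -
        (1.02 * (9 / 7) * a 1 * (1 / 2 * (1 / √((4 * P + 5 : ℕ) : ℝ) -
          1 / √((4 * (P + 1) + 5 : ℕ) : ℝ))) * (1 - Real.cos θ)) := by ring
    rw [key]
    linarith

theorem pair : S_PAIR := by
  intro a L θ hL h0 h1 h2
  classical
  set a' : ℕ → ℝ := fun l => if l ≤ L then a l else 0 with ha'
  have ha1 : a' 1 = a 1 := by simp [ha', hL]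
  have ha1' : 0 ≤ a 1 := h0 1 le_rfl hL
  have hcos : 0 ≤ 1 - Real.cos θ := by linarith [Real.cos_le_one θ]
  have g0 : ∀ l : ℕ, 1 ≤ l → 0 ≤ a' l := by
    intro l hl
    by_cases h : l ≤ L
    · simp only [ha', h, if_true]; exact h0 l hl h
    · simp [ha', h]
  have g1 : ∀ l : ℕ, 1 ≤ l → (1 + 4 / (l : ℝ)) * a' (l + 2) ≤ a' l := by
    intro l hl
    by_cases h : l + 2 ≤ L
    · have h' : l ≤ L := by omega
      simp only [ha', h, h', if_true]; exact h1 l hl h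
    · have : a' (l + 2) = 0 := by simp [ha', h]
      rw [this, mul_zero]; exact g0 l hl
  have g2 : ∀ l : ℕ, 1 ≤ l → a' l * ((l : ℝ) ^ 2 * √(l : ℝ)) ≤ 1.02 * a' 1 := by
    intro l hl
    rw [ha1]
    by_cases h : l ≤ L
    · simp only [ha', h, if_true]; exact h2 l hl h
    · have : a' l = 0 := by simp [ha', h]
      rw [this, zero_mul]; positivity
  have hG := global a' θ g0 g1 g2 L
  have hsum : ∑ l ∈ Finset.Icc 1 (4 * (L + 1)), sg l * (a' l * (1 - Real.cos (l * θ))) =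
      ∑ l ∈ Finset.Icc 1 L, sg l * a l * (1 - Real.cos (l * θ)) := by
    have hsub : Finset.Icc 1 L ⊆ Finset.Icc 1 (4 * (L + 1)) := by
      apply Finset.Icc_subset_Icc le_rfl; omega
    rw [← Finset.sum_subset hsub]
    · apply Finset.sum_congr rfl
      intro l hl
      rw [Finset.mem_Icc] at hl
      simp only [ha', hl.2, if_true]
      ring
    · intro l hl hl'
      rw [Finset.mem_Icc] at hl hl'
      have : ¬ l ≤ L := fun h => hl' ⟨hl.1, h⟩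
      simp [ha', this]
  rw [hsum, ha1] at hG
  refine le_trans ?_ hG
  have h5 : (2.236 : ℝ) ≤ √5 := by
    apply Real.le_sqrt_of_sq_le; norm_num
  have h6 : 1 / √(5 : ℝ) ≤ 1 / 2.236 := by gcongr
  have h7 : 0 ≤ 1 / √((4 * L + 5 : ℕ) : ℝ) := by positivity
  have h8 : (0.1 : ℝ) ≤ 1 - 0.589 - 1.02 * (9 / 7) *
      (1 / 2 * (1 / √(5 : ℝ) - 1 / √((4 * L + 5 : ℕ) : ℝ))) := by
    have h10 : (1 : ℝ) / 2.236 ≤ 0.4473 := by norm_num
    have h11 : 1 / √(5 : ℝ) - 1 / √((4 * L + 5 : ℕ) : ℝ) ≤ 0.4473 := by linarith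
    have h12 : 1.02 * (9 / 7) * (1 / 2 * (1 / √(5 : ℝ) - 1 / √((4 * L + 5 : ℕ) : ℝ))) ≤
        1.02 * (9 / 7) * (1 / 2 * 0.4473) := by
      apply mul_le_mul_of_nonneg_left _ (by norm_num)
      linarith
    have h13 : (0.1 : ℝ) ≤ 1 - 0.589 - 1.02 * (9 / 7) * (1 / 2 * 0.4473) := by norm_num
    linarith
  have h9 := mul_le_mul_of_nonneg_right (mul_le_mul_of_nonneg_right h8 ha1') hcos
  exact h9

end

end Pool.Agent.Run7.h892.HRT
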